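import Mathlib

set_option autoImplicit false

/-!
Non-affine maps `g` on `ZMod n` such that `x ↦ g x + (u b + v) x` is injective for all
`u, v ∈ {-1, 0, 1}`.
-/

namespace Pool.Agent.Lib.MP_70387e_co

/-- The property of a map `g` and a step `b` that yields a non-regular solution. -/
def Good (n : ℕ) (g : ZMod n → ZMod n) (b : ℤ) : Prop :=
  (∀ v : ℤ, -1 ≤ v → v ≤ 1 → IsUnit ((b + v : ℤ) : ZMod n)) ∧
  (∀ u v : ℤ, -1 ≤ u → u ≤ 1 → -1 ≤ v → v ≤ 1 →
    Function.Injective (fun x : ZMod n => g x + ((u * b + v : ℤ) : ZMod n) * x)) ∧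
  ¬ ∃ a c : ZMod n, ∀ x, g x = a * x + c

theorem isUnit_small (n : ℕ) (hn : Nat.Coprime n 210) (k : ℤ) (h1 : 1 ≤ k) (h7 : k ≤ 7) :
    IsUnit (k : ZMod n) := by
  have h : IsUnit ((420 : ℤ) : ZMod n) := by
    rw [ZMod.coe_int_isUnit_iff_isCoprime]
    have h2 : Nat.Coprime n 420 := by
      have : Nat.Coprime n (210 * 2) :=
        Nat.Coprime.mul_right hn (Nat.Coprime.coprime_dvd_right (by norm_num) hn)
      simpa using this
    exact Nat.isCoprime_iff_coprime.mpr h2
  have hd : k ∣ 420 := by interval_cases k <;> norm_num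
  obtain ⟨m, hm⟩ := hd
  rw [hm, Int.cast_mul] at h
  exact isUnit_of_mul_isUnit_left h

theorem good_composite (A B : ℕ) (hA : 1 < A) (hB : 1 < B) (hn : Nat.Coprime (A * B) 210) :
    ∃ g b, Good (A * B) g b := by
  classical
  let φ : ZMod (A * B) →+* ZMod B := ZMod.castHom (Dvd.intro_left A rfl) (ZMod B)
  have hB2 : Nat.Coprime B 210 := Nat.Coprime.coprime_mul_left hn
  have : Fact (1 < B) := ⟨hB⟩
  refine ⟨fun x => 4 * x + if φ x = 0 then (B : ZMod (A * B)) else 0, 2, ?_, ?_, ?_⟩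
  · intro v h1 h2
    exact isUnit_small _ hn _ (by omega) (by omega)
  · intro u v h1 h2 h3 h4 x y hxy
    have hu : IsUnit ((4 + (u * 2 + v) : ℤ) : ZMod (A * B)) :=
      isUnit_small _ hn _ (by omega) (by omega)
    have hφB : ∀ z, φ (if φ z = 0 then (B : ZMod (A * B)) else 0) = 0 := by
      intro z
      split_ifs <;> simp
    have e1 : ((4 + (u * 2 + v) : ℤ) : ZMod (A * B)) * x +
        (if φ x = 0 then (B : ZMod (A * B)) else 0) =
        ((4 + (u * 2 + v) : ℤ) : ZMod (A * B)) * y +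
        (if φ y = 0 then (B : ZMod (A * B)) else 0) := by
      simp only at hxy
      push_cast at hxy ⊢
      linear_combination hxy
    have e2 := congrArg φ e1
    rw [map_add, map_add, hφB, hφB, add_zero, add_zero, map_mul, map_mul] at e2
    have e3 : φ x = φ y := (hu.map φ).mul_left_cancel e2
    rw [e3, add_left_inj] at e1
    exact hu.mul_left_cancel e1
  · rintro ⟨a, c, h⟩
    have h0 := h 0
    have h1 := h 1
    have h2 := h 2
    have hφ1 : φ 1 ≠ 0 := by rw [map_one]; exact one_ne_zero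
    have hφ2 : φ 2 ≠ 0 := by
      have := (isUnit_small B hB2 2 (by norm_num) (by norm_num)).ne_zero
      rw [map_ofNat]
      simpa using this
    simp only [map_zero, if_true, if_neg hφ1, if_neg hφ2] at h0 h1 h2
    have h3 : (B : ZMod (A * B)) = 0 := by linear_combination h0 + h2 - 2 * h1
    rw [ZMod.natCast_eq_zero_iff] at h3
    have := Nat.le_of_dvd (by omega) h3
    nlinarith

theorem good_prime (p : ℕ) [Fact p.Prime] (hp : p ≠ 2) (b A B : ℤ)
    (hb : ∀ v : ℤ, -1 ≤ v → v ≤ 1 → ((b + v : ℤ) : ZMod p) ≠ 0)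
    (hAB : (A : ZMod p) ≠ (B : ZMod p))
    (hχ : ∀ u v : ℤ, -1 ≤ u → u ≤ 1 → -1 ≤ v → v ≤ 1 →
      quadraticChar (ZMod p) (((A + (u * b + v)) * (B + (u * b + v)) : ℤ) : ZMod p) = 1) :
    ∃ g b, Good p g b := by
  classical
  refine ⟨fun x => if IsSquare x then A * x else B * x, b, fun v h1 h2 => (hb v h1 h2).isUnit,
    ?_, ?_⟩
  · intro u v h1 h2 h3 h4
    have h := hχ u v h1 h2 h3 h4
    set α : ZMod p := ((A + (u * b + v) : ℤ) : ZMod p) with hα
    set β : ZMod p := ((B + (u * b + v) : ℤ) : ZMod p) with hβ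
    rw [Int.cast_mul, ← hα, ← hβ] at h
    have hne : α * β ≠ 0 := by
      intro h0
      rw [h0] at h
      simp at h
    have hα0 : α ≠ 0 := left_ne_zero_of_mul hne
    have hβ0 : β ≠ 0 := right_ne_zero_of_mul hne
    have key : ∀ x y : ZMod p, IsSquare x → ¬ IsSquare y → α * x ≠ β * y := by
      intro x y hx hy hxy
      have hy0 : y ≠ 0 := by
        rintro rfl
        exact hy IsSquare.zero
      have hx0 : x ≠ 0 := by
        rintro rfl
        rw [mul_zero] at hxy
        exact mul_ne_zero hβ0 hy0 hxy.symm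
      have e1 : α * β * x = β * β * y := by linear_combination β * hxy
      have e2 := congrArg (quadraticChar (ZMod p)) e1
      rw [map_mul, map_mul _ (β * β), h, (quadraticChar_one_iff_isSquare hx0).mpr hx,
        quadraticChar_neg_one_iff_not_isSquare.mpr hy,
        (quadraticChar_one_iff_isSquare (mul_ne_zero hβ0 hβ0)).mpr ⟨β, rfl⟩] at e2
      norm_num at e2
    have hf : ∀ x : ZMod p, (if IsSquare x then A * x else B * x) + ((u * b + v : ℤ) : ZMod p) * x
        = if IsSquare x then α * x else β * x := by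
      intro x
      split_ifs
      · rw [hα]; push_cast; ring
      · rw [hβ]; push_cast; ring
    intro x y hxy
    simp only [hf] at hxy
    by_cases hx : IsSquare x <;> by_cases hy : IsSquare y
    · rw [if_pos hx, if_pos hy] at hxy
      exact mul_left_cancel₀ hα0 hxy
    · rw [if_pos hx, if_neg hy] at hxy
      exact absurd hxy (key x y hx hy)
    · rw [if_neg hx, if_pos hy] at hxy
      exact absurd hxy.symm (key y x hy hx)
    · rw [if_neg hx, if_neg hy] at hxy
      exact mul_left_cancel₀ hβ0 hxy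
  · rintro ⟨a, c, h⟩
    obtain ⟨y, hy⟩ := FiniteField.exists_nonsquare (F := ZMod p) (by rwa [ZMod.ringChar_zmod_n])
    have hy0 : y ≠ 0 := by
      rintro rfl
      exact hy IsSquare.zero
    have h0 := h 0
    have h1 := h 1
    have h2 := h y
    simp only [IsSquare.zero, IsSquare.one, if_true, if_neg hy] at h0 h1 h2
    apply hAB
    apply mul_right_cancel₀ hy0
    linear_combination y * h1 - h2 + (1 - y) * h0

theorem good_large_prime (p : ℕ) [Fact p.Prime] (hp : 135 < p) : ∃ g b, Good p g b := by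
  classical
  have hne : ∀ z : ℤ, 0 < z → z < p → (z : ZMod p) ≠ 0 := by
    intro z h1 h2 h
    rw [ZMod.intCast_zmod_eq_zero_iff_dvd] at h
    have := Int.le_of_dvd h1 h
    omega
  obtain ⟨A, hA, B, hB, hAB, hf⟩ := Finset.exists_ne_map_eq_of_card_lt_of_maps_to
    (s := Finset.Icc (4 : ℤ) (p - 4)) (t := (Finset.univ : Finset (Fin 7 → Bool)))
    (f := fun A i => decide (IsSquare ((A + ((i : ℕ) : ℤ) - 3 : ℤ) : ZMod p)))
    (by simp; omega) (fun _ _ => Finset.mem_coe.mpr (Finset.mem_univ _))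
  rw [Finset.mem_Icc] at hA hB
  refine good_prime p (by omega) 2 A B (fun v h1 h2 => hne _ (by omega) (by omega)) ?_ ?_
  · intro h
    rw [ZMod.intCast_eq_intCast_iff_dvd_sub] at h
    have := Int.eq_zero_of_abs_lt_dvd h (by rw [abs_lt]; omega)
    omega
  · intro u v h1 h2 h3 h4
    have hk := congrFun hf ⟨(u * 2 + v + 3).toNat, by omega⟩
    simp only [decide_eq_decide] at hk
    have e : (((u * 2 + v + 3).toNat : ℕ) : ℤ) = u * 2 + v + 3 := by omega
    rw [e, show A + (u * 2 + v + 3) - 3 = A + (u * 2 + v) by ring,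
      show B + (u * 2 + v + 3) - 3 = B + (u * 2 + v) by ring] at hk
    have hα := hne (A + (u * 2 + v)) (by omega) (by omega)
    have hβ := hne (B + (u * 2 + v)) (by omega) (by omega)
    rw [Int.cast_mul, map_mul]
    by_cases hs : IsSquare ((A + (u * 2 + v) : ℤ) : ZMod p)
    · rw [(quadraticChar_one_iff_isSquare hα).mpr hs,
        (quadraticChar_one_iff_isSquare hβ).mpr (hk.mp hs)]
      norm_num
    · rw [quadraticChar_neg_one_iff_not_isSquare.mpr hs,
        quadraticChar_neg_one_iff_not_isSquare.mpr (fun h => hs (hk.mpr h))]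
      norm_num

/-- Explicit parameters `(p, b, A, B)` for the small primes. -/
def table : List (ℕ × ℤ × ℤ × ℤ) :=
  [(29, 2, 11, 18), (37, 2, 16, 21), (41, 2, 13, 28), (43, 10, 4, 6), (47, 2, 10, 19),
   (53, 2, 19, 31), (59, 2, 7, 51), (61, 2, 26, 35), (67, 2, 5, 48), (71, 2, 8, 18),
   (73, 2, 8, 18), (79, 2, 4, 25), (83, 2, 9, 25), (89, 2, 41, 46), (97, 2, 15, 21),
   (101, 2, 13, 30), (103, 2, 10, 20), (107, 2, 10, 34), (109, 2, 5, 36), (113, 2, 11, 28),
   (127, 2, 16, 35), (131, 2, 4, 12)]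

theorem table_spec : ∀ p ∈ List.range 136, Nat.Coprime p 210 → p ≠ 121 → (p = 29 ∨ 37 ≤ p) →
    ∃ t ∈ table, t.1 = p ∧ (∀ v ∈ [(-1 : ℤ), 0, 1], ¬ (p : ℤ) ∣ t.2.1 + v) ∧
      ¬ (p : ℤ) ∣ t.2.2.2 - t.2.2.1 ∧
      ∀ u ∈ [(-1 : ℤ), 0, 1], ∀ v ∈ [(-1 : ℤ), 0, 1],
        ¬ (p : ℤ) ∣ (t.2.2.1 + (u * t.2.1 + v)) * (t.2.2.2 + (u * t.2.1 + v)) ∧
        ∃ r ∈ List.range p,
          (p : ℤ) ∣ (r : ℤ) * r - (t.2.2.1 + (u * t.2.1 + v)) * (t.2.2.2 + (u * t.2.1 + v)) := by
  decide +kernel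

theorem good_of_coprime (n : ℕ) (hn : Nat.Coprime n 210) (h : n = 29 ∨ 37 ≤ n) :
    ∃ g b, Good n g b := by
  by_cases hp : n.Prime
  · have : Fact n.Prime := ⟨hp⟩
    by_cases hl : 135 < n
    · exact good_large_prime n hl
    · obtain ⟨⟨p, b, A, B⟩, -, -, h1, h2, h3⟩ := table_spec n (List.mem_range.mpr (by omega)) hn
        (by rintro rfl; exact absurd hp (by norm_num)) h
      have hm : ∀ v : ℤ, -1 ≤ v → v ≤ 1 → v ∈ [(-1 : ℤ), 0, 1] := by
        intro v h1 h2
        simp only [List.mem_cons, List.not_mem_nil, or_false]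
        omega
      refine good_prime n (by omega) b A B (fun v h4 h5 => ?_) ?_ (fun u v h4 h5 h6 h7 => ?_)
      · rw [Ne, ZMod.intCast_zmod_eq_zero_iff_dvd]
        exact h1 v (hm v h4 h5)
      · rw [Ne, ZMod.intCast_eq_intCast_iff_dvd_sub]
        exact h2
      · obtain ⟨h8, r, -, h9⟩ := h3 u (hm u h4 h5) v (hm v h6 h7)
        rw [quadraticChar_one_iff_isSquare (by rwa [Ne, ZMod.intCast_zmod_eq_zero_iff_dvd])]
        refine ⟨((r : ℤ) : ZMod n), ?_⟩
        rw [← Int.cast_mul, ZMod.intCast_eq_intCast_iff_dvd_sub]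
        exact h9
  · obtain ⟨A, hA, hA2, hAn⟩ := Nat.exists_dvd_of_not_prime2 (by omega) hp
    obtain ⟨B, rfl⟩ := hA
    refine good_composite A B (by omega) ?_ hn
    by_contra hB
    have : B = 0 ∨ B = 1 := by omega
    rcases this with rfl | rfl <;> omega

end Pool.Agent.Lib.MP_70387e_co
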